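import Mathlib

set_option autoImplicit false

/-!
Attained reduced degrees of normal lattice polytopes: a family of normal lattice polytopes
with interior lattice points whose set of attained reduced degrees is `{1, d}`.
-/

namespace Pool.Agent.Results.MP_751e6a_co.GapInDegrees

/-- A point of `ℝⁿ` is a lattice point if all its coordinates are integers. -/
def IsLattice {n : ℕ} (x : Fin n → ℝ) : Prop := ∀ i, ∃ z : ℤ, x i = z

/-- A lattice polytope in `ℝⁿ`: the convex hull of a nonempty finite set of lattice points. -/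
def IsLatticePolytope {n : ℕ} (P : Set (Fin n → ℝ)) : Prop :=
  ∃ S : Finset (Fin n → ℝ), S.Nonempty ∧ (∀ v ∈ S, IsLattice v) ∧
    P = convexHull ℝ (S : Set (Fin n → ℝ))

/-- The dilate `N S = {N x : x ∈ S}`. -/
def dilate {n : ℕ} (N : ℕ) (S : Set (Fin n → ℝ)) : Set (Fin n → ℝ) :=
  (fun x => (N : ℝ) • x) '' S

/-- `P` is normal: for `N ≥ 2` every lattice point of `N P` is a sum of `N` lattice points
of `P`. -/
def IsNormal {n : ℕ} (P : Set (Fin n → ℝ)) : Prop :=
  ∀ N : ℕ, 2 ≤ N → ∀ a ∈ dilate N P, IsLattice a →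
    ∃ p : Fin N → (Fin n → ℝ), (∀ j, p j ∈ P ∧ IsLattice (p j)) ∧ a = ∑ j, p j

/-- `r` is the reduced `P`-degree of `a`, a lattice point of `N P°`: it is the least `r ≥ 1`
such that `a = a₀ + a'` with `a₀` a lattice point of `r P°` and `a'` one of `(N - r) P`. -/
def IsReducedDegree {n : ℕ} (P : Set (Fin n → ℝ)) (N : ℕ) (a : Fin n → ℝ) (r : ℕ) : Prop :=
  IsLeast {r : ℕ | 1 ≤ r ∧ r ≤ N ∧ ∃ a₀ a' : Fin n → ℝ, a = a₀ + a' ∧
    a₀ ∈ dilate r (interior P) ∧ IsLattice a₀ ∧ a' ∈ dilate (N - r) P ∧ IsLattice a'} r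

/-- `i` is attained: some lattice point of some `N P°`, `N ≥ 1`, has reduced degree `i`. -/
def IsAttained {n : ℕ} (P : Set (Fin n → ℝ)) (i : ℕ) : Prop :=
  ∃ N : ℕ, 1 ≤ N ∧ ∃ a ∈ dilate N (interior P), IsLattice a ∧ IsReducedDegree P N a i

/-- `d` is the int* degree of `P`: the largest attained reduced degree. -/
def IsIntStarDegree {n : ℕ} (P : Set (Fin n → ℝ)) (d : ℕ) : Prop :=
  IsGreatest {i : ℕ | IsAttained P i} d

/-- The polytope `{(t, x) : 0 ≤ t ≤ 3, x ≥ 0, x₁ + ... + x_{2c} ≤ 1 + c t}` of `ℝ^{2c+1}`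
(`t` is coordinate `0`). -/
def Q (c : ℕ) : Set (Fin (2 * c + 1) → ℝ) :=
  {p | 0 ≤ p 0 ∧ p 0 ≤ 3 ∧ (∀ i : Fin (2 * c), 0 ≤ p i.succ) ∧
    ∑ i : Fin (2 * c), p i.succ ≤ 1 + c * p 0}

lemma convex_Q (c : ℕ) : Convex ℝ (Q c) := by
  intro p hp q hq a b ha hb hab
  obtain ⟨hp1, hp2, hp3, hp4⟩ := hp
  obtain ⟨hq1, hq2, hq3, hq4⟩ := hq
  refine ⟨?_, ?_, ?_, ?_⟩
  · simp only [Pi.add_apply, Pi.smul_apply, smul_eq_mul]
    positivity
  · simp only [Pi.add_apply, Pi.smul_apply, smul_eq_mul]
    nlinarith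
  · intro i
    have := hp3 i
    have := hq3 i
    simp only [Pi.add_apply, Pi.smul_apply, smul_eq_mul]
    positivity
  · simp only [Pi.add_apply, Pi.smul_apply, smul_eq_mul, Finset.sum_add_distrib,
      ← Finset.mul_sum]
    have h1 := mul_le_mul_of_nonneg_left hp4 ha
    have h2 := mul_le_mul_of_nonneg_left hq4 hb
    nlinarith

/-- Membership in the dilates. -/
lemma mem_dilate_Q (c N : ℕ) (a : Fin (2 * c + 1) → ℝ) :
    a ∈ dilate N (Q c) ↔ 0 ≤ a 0 ∧ a 0 ≤ 3 * N ∧ (∀ i : Fin (2 * c), 0 ≤ a i.succ) ∧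
      ∑ i : Fin (2 * c), a i.succ ≤ N + c * a 0 := by
  constructor
  · rintro ⟨p, ⟨h1, h2, h3, h4⟩, rfl⟩
    have hN : (0 : ℝ) ≤ N := Nat.cast_nonneg N
    refine ⟨?_, ?_, ?_, ?_⟩
    · simp only [Pi.smul_apply, smul_eq_mul]; positivity
    · simp only [Pi.smul_apply, smul_eq_mul]; nlinarith
    · intro i
      have := h3 i
      simp only [Pi.smul_apply, smul_eq_mul]; positivity
    · simp only [Pi.smul_apply, smul_eq_mul, ← Finset.mul_sum]
      have := mul_le_mul_of_nonneg_left h4 hN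
      nlinarith
  · rintro ⟨h1, h2, h3, h4⟩
    rcases Nat.eq_zero_or_pos N with rfl | hN
    · have h0 : a 0 = 0 := by
        have : a 0 ≤ 0 := by simpa using h2
        linarith
      have hs : ∑ i : Fin (2 * c), a i.succ = 0 := by
        apply le_antisymm
        · simpa [h0] using h4
        · exact Finset.sum_nonneg fun i _ => h3 i
      have hz := (Finset.sum_eq_zero_iff_of_nonneg (fun i _ => h3 i)).1 hs
      refine ⟨0, ⟨le_refl _, by norm_num, fun i => le_refl _, by simp⟩, ?_⟩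
      funext i
      refine Fin.cases ?_ (fun i => ?_) i
      · simp [h0]
      · simp [hz i (Finset.mem_univ i)]
    · have hN' : (0 : ℝ) < N := by exact_mod_cast hN
      refine ⟨(N : ℝ)⁻¹ • a, ⟨?_, ?_, ?_, ?_⟩, ?_⟩
      · simp only [Pi.smul_apply, smul_eq_mul]; positivity
      · simp only [Pi.smul_apply, smul_eq_mul]
        rw [inv_mul_le_iff₀ hN']; linarith
      · intro i
        have := h3 i
        simp only [Pi.smul_apply, smul_eq_mul]; positivity
      · simp only [Pi.smul_apply, smul_eq_mul, ← Finset.mul_sum]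
        rw [inv_mul_le_iff₀ hN']
        have : (N : ℝ) * (1 + c * ((N : ℝ)⁻¹ * a 0)) = N + c * a 0 := by
          field_simp
        rw [this]; exact h4
      · funext i
        simp only [Pi.smul_apply, smul_eq_mul]
        field_simp

/-- Along any direction `v` one can move a little from an interior point. -/
lemma exists_add_smul_mem {n : ℕ} {P : Set (Fin n → ℝ)} {p : Fin n → ℝ} (hp : p ∈ interior P)
    (v : Fin n → ℝ) : ∃ ε : ℝ, 0 < ε ∧ p + ε • v ∈ P := by
  have hcont : Filter.Tendsto (fun ε : ℝ => p + ε • v) (nhds 0) (nhds p) := by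
    have : Continuous fun ε : ℝ => p + ε • v := by fun_prop
    simpa using this.tendsto 0
  have h1 : ∀ᶠ ε in nhds (0 : ℝ), p + ε • v ∈ P :=
    hcont.eventually (mem_interior_iff_mem_nhds.1 hp)
  have h2 : ∀ᶠ ε in nhdsWithin (0 : ℝ) (Set.Ioi 0), p + ε • v ∈ P :=
    h1.filter_mono nhdsWithin_le_nhds
  obtain ⟨ε, h3, h4⟩ := (h2.and self_mem_nhdsWithin).exists
  exact ⟨ε, h4, h3⟩

lemma mem_interior_Q (c : ℕ) (p : Fin (2 * c + 1) → ℝ) :
    p ∈ interior (Q c) ↔ 0 < p 0 ∧ p 0 < 3 ∧ (∀ i : Fin (2 * c), 0 < p i.succ) ∧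
      ∑ i : Fin (2 * c), p i.succ < 1 + c * p 0 := by
  constructor
  · intro hp
    refine ⟨?_, ?_, ?_, ?_⟩
    · obtain ⟨ε, hε, h⟩ := exists_add_smul_mem hp (-Pi.single 0 1)
      have := h.1
      simp at this
      linarith
    · obtain ⟨ε, hε, h⟩ := exists_add_smul_mem hp (Pi.single 0 1)
      have := h.2.1
      simp at this
      linarith
    · intro i
      obtain ⟨ε, hε, h⟩ := exists_add_smul_mem hp (-Pi.single i.succ 1)
      have := h.2.2.1 i
      simp at this
      linarith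
    · obtain ⟨ε, hε, h⟩ := exists_add_smul_mem hp (-Pi.single 0 1 + fun i => if i = 0 then 0 else 1)
      have h4 := h.2.2.2
      simp [Finset.sum_add_distrib] at h4
      by_cases hc : c = 0
      · subst hc
        simp
      · have : (1 : ℝ) ≤ c := by exact_mod_cast Nat.one_le_iff_ne_zero.2 hc
        nlinarith
  · rintro ⟨h1, h2, h3, h4⟩
    rw [mem_interior_iff_mem_nhds]
    have e1 : ∀ᶠ q : Fin (2 * c + 1) → ℝ in nhds p, 0 < q 0 :=
      (isOpen_lt continuous_const (continuous_apply 0)).mem_nhds h1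
    have e2 : ∀ᶠ q : Fin (2 * c + 1) → ℝ in nhds p, q 0 < 3 :=
      (isOpen_lt (continuous_apply 0) continuous_const).mem_nhds h2
    have e3 : ∀ᶠ q : Fin (2 * c + 1) → ℝ in nhds p, ∀ i : Fin (2 * c), 0 < q i.succ :=
      Filter.eventually_all.2 fun i =>
        (isOpen_lt continuous_const (continuous_apply i.succ)).mem_nhds (h3 i)
    have c1 : Continuous fun q : Fin (2 * c + 1) → ℝ => ∑ i : Fin (2 * c), q i.succ := by
      fun_prop
    have c2 : Continuous fun q : Fin (2 * c + 1) → ℝ => 1 + (c : ℝ) * q 0 := by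
      fun_prop
    have e4 : ∀ᶠ q : Fin (2 * c + 1) → ℝ in nhds p,
        ∑ i : Fin (2 * c), q i.succ < 1 + c * q 0 := (isOpen_lt c1 c2).mem_nhds h4
    filter_upwards [e1, e2, e3, e4] with q g1 g2 g3 g4
    exact ⟨g1.le, g2.le, fun i => (g3 i).le, g4.le⟩

lemma mem_dilate_interior_Q (c N : ℕ) (hN : 1 ≤ N) (a : Fin (2 * c + 1) → ℝ) :
    a ∈ dilate N (interior (Q c)) ↔ 0 < a 0 ∧ a 0 < 3 * N ∧
      (∀ i : Fin (2 * c), 0 < a i.succ) ∧ ∑ i : Fin (2 * c), a i.succ < N + c * a 0 := by
  have hN' : (0 : ℝ) < N := by exact_mod_cast hN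
  constructor
  · rintro ⟨p, hp, rfl⟩
    obtain ⟨h1, h2, h3, h4⟩ := (mem_interior_Q c p).1 hp
    refine ⟨?_, ?_, ?_, ?_⟩
    · simp only [Pi.smul_apply, smul_eq_mul]; positivity
    · simp only [Pi.smul_apply, smul_eq_mul]; nlinarith
    · intro i
      have := h3 i
      simp only [Pi.smul_apply, smul_eq_mul]; positivity
    · simp only [Pi.smul_apply, smul_eq_mul, ← Finset.mul_sum]
      have := mul_lt_mul_of_pos_left h4 hN'
      nlinarith
  · rintro ⟨h1, h2, h3, h4⟩
    refine ⟨(N : ℝ)⁻¹ • a, (mem_interior_Q c _).2 ⟨?_, ?_, ?_, ?_⟩, ?_⟩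
    · simp only [Pi.smul_apply, smul_eq_mul]; positivity
    · simp only [Pi.smul_apply, smul_eq_mul]
      rw [inv_mul_lt_iff₀ hN']; linarith
    · intro i
      have := h3 i
      simp only [Pi.smul_apply, smul_eq_mul]; positivity
    · simp only [Pi.smul_apply, smul_eq_mul, ← Finset.mul_sum]
      rw [inv_mul_lt_iff₀ hN']
      have : (N : ℝ) * (1 + c * ((N : ℝ)⁻¹ * a 0)) = N + c * a 0 := by
        field_simp
      rw [this]; exact h4
    · funext i
      simp only [Pi.smul_apply, smul_eq_mul]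
      field_simp

/-- The point of `ℝ^{2c+1}` with integer coordinates `t` and `x`. -/
def pt (c : ℕ) (t : ℤ) (x : Fin (2 * c) → ℤ) : Fin (2 * c + 1) → ℝ :=
  Fin.cons (t : ℝ) (fun i => (x i : ℝ))

lemma pt_zero (c : ℕ) (t : ℤ) (x : Fin (2 * c) → ℤ) : pt c t x 0 = t := rfl

lemma pt_succ (c : ℕ) (t : ℤ) (x : Fin (2 * c) → ℤ) (i : Fin (2 * c)) :
    pt c t x i.succ = x i := rfl

lemma isLattice_pt (c : ℕ) (t : ℤ) (x : Fin (2 * c) → ℤ) : IsLattice (pt c t x) := by
  intro i
  refine Fin.cases ⟨t, rfl⟩ (fun i => ⟨x i, rfl⟩) i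

lemma exists_pt {c : ℕ} {a : Fin (2 * c + 1) → ℝ} (ha : IsLattice a) :
    ∃ (t : ℤ) (x : Fin (2 * c) → ℤ), a = pt c t x := by
  choose z hz using ha
  refine ⟨z 0, fun i => z i.succ, ?_⟩
  funext i
  refine Fin.cases ?_ (fun i => ?_) i
  · rw [pt_zero]; exact hz 0
  · rw [pt_succ]; exact hz i.succ

lemma pt_add (c : ℕ) (t s : ℤ) (x y : Fin (2 * c) → ℤ) :
    pt c t x + pt c s y = pt c (t + s) (x + y) := by
  funext i
  refine Fin.cases ?_ (fun i => ?_) i
  · simp [pt_zero]
  · simp [pt_succ]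

lemma pt_mem_dilate (c N : ℕ) (t : ℤ) (x : Fin (2 * c) → ℤ) :
    pt c t x ∈ dilate N (Q c) ↔ 0 ≤ t ∧ t ≤ 3 * N ∧ (∀ i, 0 ≤ x i) ∧ ∑ i, x i ≤ N + c * t := by
  rw [mem_dilate_Q]
  simp only [pt_zero, pt_succ]
  constructor
  · rintro ⟨h1, h2, h3, h4⟩
    exact ⟨by exact_mod_cast h1, by exact_mod_cast h2, fun i => by exact_mod_cast h3 i,
      by exact_mod_cast h4⟩
  · rintro ⟨h1, h2, h3, h4⟩
    exact ⟨by exact_mod_cast h1, by exact_mod_cast h2, fun i => by exact_mod_cast h3 i,
      by exact_mod_cast h4⟩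

lemma pt_mem_dilate_interior (c N : ℕ) (hN : 1 ≤ N) (t : ℤ) (x : Fin (2 * c) → ℤ) :
    pt c t x ∈ dilate N (interior (Q c)) ↔
      0 < t ∧ t < 3 * N ∧ (∀ i, 0 < x i) ∧ ∑ i, x i < N + c * t := by
  rw [mem_dilate_interior_Q c N hN]
  simp only [pt_zero, pt_succ]
  constructor
  · rintro ⟨h1, h2, h3, h4⟩
    exact ⟨by exact_mod_cast h1, by exact_mod_cast h2, fun i => by exact_mod_cast h3 i,
      by exact_mod_cast h4⟩
  · rintro ⟨h1, h2, h3, h4⟩
    exact ⟨by exact_mod_cast h1, by exact_mod_cast h2, fun i => by exact_mod_cast h3 i,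
      by exact_mod_cast h4⟩

/-- A nonnegative integer vector dominates vectors of every smaller sum. -/
lemma exists_le_sum {m : ℕ} (x : Fin m → ℤ) (hx : ∀ i, 0 ≤ x i) (s : ℕ)
    (hs : (s : ℤ) ≤ ∑ i, x i) : ∃ y : Fin m → ℤ, (∀ i, 0 ≤ y i ∧ y i ≤ x i) ∧ ∑ i, y i = s := by
  induction s with
  | zero => exact ⟨0, fun i => ⟨le_refl _, hx i⟩, by simp⟩
  | succ s ih =>
    obtain ⟨y, hy, hys⟩ := ih (by push_cast at hs; linarith)
    have : ∃ i, y i < x i := by
      by_contra hcon
      push Not at hcon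
      have h1 : ∑ i, x i ≤ ∑ i, y i := Finset.sum_le_sum fun i _ => hcon i
      push_cast at hs
      linarith
    obtain ⟨i, hi⟩ := this
    refine ⟨Function.update y i (y i + 1), fun j => ?_, ?_⟩
    · by_cases hj : j = i
      · subst hj
        rw [Function.update_self]
        have := (hy j).1
        constructor <;> omega
      · rw [Function.update_of_ne hj]
        exact hy j
    · rw [Finset.sum_update_of_mem (Finset.mem_univ i), Finset.sdiff_singleton_eq_erase,
        ← Finset.add_sum_erase _ _ (Finset.mem_univ i)] at *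
      push_cast
      linarith

lemma one_dilate (c : ℕ) (a : Fin (2 * c + 1) → ℝ) : a ∈ dilate 1 (Q c) ↔ a ∈ Q c := by
  simp [dilate]

lemma one_dilate_interior (c : ℕ) (a : Fin (2 * c + 1) → ℝ) :
    a ∈ dilate 1 (interior (Q c)) ↔ a ∈ interior (Q c) := by
  simp [dilate]

/-- Splitting off one lattice point of `Q c`. -/
lemma split_off (c N : ℕ) (t : ℤ) (x : Fin (2 * c) → ℤ) (h : pt c t x ∈ dilate (N + 1) (Q c)) :
    ∃ (t₁ t₂ : ℤ) (x₁ x₂ : Fin (2 * c) → ℤ), pt c t x = pt c t₁ x₁ + pt c t₂ x₂ ∧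
      pt c t₁ x₁ ∈ Q c ∧ pt c t₂ x₂ ∈ dilate N (Q c) := by
  obtain ⟨h1, h2, h3, h4⟩ := (pt_mem_dilate c (N + 1) t x).1 h
  push_cast at h2 h4
  have hc : (0 : ℤ) ≤ c := Int.natCast_nonneg c
  have ht : 0 ≤ min t 3 := le_min h1 (by norm_num)
  have hx : 0 ≤ ∑ i, x i := Finset.sum_nonneg fun i _ => h3 i
  obtain ⟨s, hs⟩ : ∃ s : ℕ, (s : ℤ) = min (∑ i, x i) (1 + c * min t 3) := by
    refine ⟨(min (∑ i, x i) (1 + c * min t 3)).toNat, Int.toNat_of_nonneg ?_⟩
    apply le_min hx
    positivity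
  obtain ⟨y, hy, hys⟩ := exists_le_sum x h3 s (by rw [hs]; exact min_le_left _ _)
  refine ⟨min t 3, t - min t 3, y, x - y, ?_, ?_, ?_⟩
  · rw [pt_add]
    congr 1 <;> abel
  · rw [← one_dilate, pt_mem_dilate]
    refine ⟨ht, ?_, fun i => (hy i).1, ?_⟩
    · have := min_le_right t 3
      push_cast; omega
    · rw [hys, hs]
      push_cast
      exact min_le_right _ _
  · rw [pt_mem_dilate]
    refine ⟨?_, ?_, ?_, ?_⟩
    · have := min_le_left t 3
      omega
    · omega
    · intro i
      have := (hy i).2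
      simp only [Pi.sub_apply]
      omega
    · simp only [Pi.sub_apply, Finset.sum_sub_distrib]
      rw [hys, hs, mul_sub]
      have hct : (c : ℤ) * min t 3 ≤ c * t := mul_le_mul_of_nonneg_left (min_le_left _ _) hc
      have hN : (0 : ℤ) ≤ N := Int.natCast_nonneg N
      rcases min_choice (∑ i, x i) (1 + c * min t 3) with h5 | h5
      · rw [h5]; linarith
      · rw [h5]; linarith

lemma isNormal_Q (c : ℕ) : IsNormal (Q c) := by
  have key : ∀ N : ℕ, ∀ (t : ℤ) (x : Fin (2 * c) → ℤ), pt c t x ∈ dilate N (Q c) →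
      ∃ p : Fin N → (Fin (2 * c + 1) → ℝ), (∀ j, p j ∈ Q c ∧ IsLattice (p j)) ∧
        pt c t x = ∑ j, p j := by
    intro N
    induction N with
    | zero =>
      intro t x h
      refine ⟨fun j => j.elim0, fun j => j.elim0, ?_⟩
      obtain ⟨q, -, hq⟩ := h
      rw [← hq]
      simp
    | succ N ih =>
      intro t x h
      obtain ⟨t₁, t₂, x₁, x₂, hsum, h1, h2⟩ := split_off c N t x h
      obtain ⟨p, hp, hps⟩ := ih t₂ x₂ h2
      refine ⟨Fin.cons (pt c t₁ x₁) p, ?_, ?_⟩
      · intro j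
        refine Fin.cases ?_ (fun j => ?_) j
        · exact ⟨h1, isLattice_pt c t₁ x₁⟩
        · simpa using hp j
      · rw [Fin.sum_univ_succ]
        simp only [Fin.cons_zero, Fin.cons_succ]
        rw [← hps, hsum]
  intro N _ a ha hal
  obtain ⟨t, x, rfl⟩ := exists_pt hal
  exact key N t x ha

/-- The all-ones vector. -/
def ones (c : ℕ) : Fin (2 * c) → ℤ := fun _ => 1

lemma sum_ones (c : ℕ) : ∑ i, ones c i = 2 * c := by simp [ones]

/-- Lattice points with `t ≥ 2` have reduced degree `1`. -/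
lemma reduced_one (c N : ℕ) (hN : 1 ≤ N) (t : ℤ) (x : Fin (2 * c) → ℤ) (ht : 2 ≤ t)
    (h : pt c t x ∈ dilate N (interior (Q c))) : IsReducedDegree (Q c) N (pt c t x) 1 := by
  obtain ⟨h1, h2, h3, h4⟩ := (pt_mem_dilate_interior c N hN t x).1 h
  constructor
  · refine ⟨le_refl _, hN, pt c 2 (ones c), pt c (t - 2) (x - ones c), ?_, ?_,
      isLattice_pt _ _ _, ?_, isLattice_pt _ _ _⟩
    · rw [pt_add]
      congr 1 <;> abel
    · rw [pt_mem_dilate_interior c 1 (le_refl _)]
      refine ⟨by norm_num, by norm_num, fun i => by simp [ones], ?_⟩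
      rw [sum_ones]
      push_cast
      linarith
    · rw [pt_mem_dilate]
      refine ⟨by omega, ?_, ?_, ?_⟩
      · push_cast [Nat.cast_sub hN]
        omega
      · intro i
        have := h3 i
        simp only [Pi.sub_apply, ones]
        omega
      · simp only [Pi.sub_apply, Finset.sum_sub_distrib]
        rw [sum_ones, mul_sub]
        push_cast [Nat.cast_sub hN]
        linarith
  · intro r hr
    exact hr.1

/-- Lattice points with `t = 1` have reduced degree `c + 1`. -/
lemma reduced_big (c N : ℕ) (hN : 1 ≤ N) (x : Fin (2 * c) → ℤ)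
    (h : pt c 1 x ∈ dilate N (interior (Q c))) :
    IsReducedDegree (Q c) N (pt c 1 x) (c + 1) := by
  obtain ⟨h1, h2, h3, h4⟩ := (pt_mem_dilate_interior c N hN 1 x).1 h
  have hge : ∀ y : Fin (2 * c) → ℤ, (∀ i, 0 < y i) → (2 * c : ℤ) ≤ ∑ i, y i := by
    intro y hy
    rw [← sum_ones]
    exact Finset.sum_le_sum fun i _ => by
      have := hy i
      simp only [ones]
      omega
  have hcN : c + 1 ≤ N := by
    have := hge x h3
    omega
  constructor
  · refine ⟨by omega, hcN, pt c 1 (ones c), pt c 0 (x - ones c), ?_, ?_,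
      isLattice_pt _ _ _, ?_, isLattice_pt _ _ _⟩
    · rw [pt_add]
      congr 1
      abel
    · rw [pt_mem_dilate_interior c (c + 1) (by omega)]
      refine ⟨by norm_num, by push_cast; omega, fun i => by simp [ones], ?_⟩
      rw [sum_ones]
      push_cast
      linarith
    · rw [pt_mem_dilate]
      refine ⟨le_refl _, by positivity, ?_, ?_⟩
      · intro i
        have := h3 i
        simp only [Pi.sub_apply, ones]
        omega
      · simp only [Pi.sub_apply, Finset.sum_sub_distrib]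
        rw [sum_ones]
        push_cast [Nat.cast_sub hcN]
        linarith
  · rintro r ⟨hr1, hrN, a₀, a', hsum, ha₀, hl₀, ha', hl'⟩
    obtain ⟨t₀, x₀, rfl⟩ := exists_pt hl₀
    obtain ⟨t', x', rfl⟩ := exists_pt hl'
    obtain ⟨g1, g2, g3, g4⟩ := (pt_mem_dilate_interior c r hr1 t₀ x₀).1 ha₀
    obtain ⟨k1, k2, k3, k4⟩ := (pt_mem_dilate c (N - r) t' x').1 ha'
    have ht : (1 : ℤ) = t₀ + t' := by
      have := congrFun hsum 0
      rw [Pi.add_apply, pt_zero, pt_zero, pt_zero] at this
      exact_mod_cast this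
    have ht₀ : t₀ = 1 := by omega
    subst ht₀
    have := hge x₀ g3
    omega

lemma convex_comb {m n : ℕ} {K : Set (Fin n → ℝ)} (hK : Convex ℝ K) (u₀ : Fin n → ℝ)
    (u : Fin m → (Fin n → ℝ)) (h₀ : u₀ ∈ K) (hu : ∀ i, u i ∈ K) (y : Fin m → ℝ)
    (hy : ∀ i, 0 ≤ y i) (hys : ∑ i, y i ≤ 1) :
    (1 - ∑ i, y i) • u₀ + ∑ i, y i • u i ∈ K := by
  have := hK.sum_mem (t := (Finset.univ : Finset (Option (Fin m))))
    (w := fun o => o.elim (1 - ∑ i, y i) y) (z := fun o => o.elim u₀ u)
    (by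
      rintro (_ | i) -
      · simpa using hys
      · exact hy i)
    (by rw [Fintype.sum_option]; simp)
    (by
      rintro (_ | i) -
      · exact h₀
      · exact hu i)
  rw [Fintype.sum_option] at this
  simpa using this

/-- The candidate vertices of `Q c`. -/
noncomputable def verts (c : ℕ) : Finset (Fin (2 * c + 1) → ℝ) :=
  {pt c 0 0, pt c 3 0} ∪
    ((Finset.univ.image fun i : Fin (2 * c) => pt c 0 (Pi.single i 1)) ∪
      (Finset.univ.image fun i : Fin (2 * c) => pt c 3 (Pi.single i (1 + 3 * c))))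

lemma isLatticePolytope_Q (c : ℕ) : IsLatticePolytope (Q c) := by
  refine ⟨verts c, ⟨pt c 0 0, by simp [verts]⟩, ?_, ?_⟩
  · intro v hv
    simp only [verts, Finset.mem_union, Finset.mem_insert, Finset.mem_singleton,
      Finset.mem_image, Finset.mem_univ, true_and] at hv
    rcases hv with (rfl | rfl) | ⟨i, rfl⟩ | ⟨i, rfl⟩ <;> exact isLattice_pt _ _ _
  · apply Set.Subset.antisymm
    · intro p hp
      obtain ⟨h1, h2, h3, h4⟩ := hp
      have hs : (0 : ℝ) < 1 + c * p 0 := by positivity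
      set s : ℝ := 1 + c * p 0 with hsdef
      set y : Fin (2 * c) → ℝ := fun i => p i.succ / s with hy
      have hy0 : ∀ i, 0 ≤ y i := fun i => div_nonneg (h3 i) hs.le
      have hy1 : ∑ i, y i ≤ 1 := by
        rw [hy]
        simp only [← Finset.sum_div]
        rw [div_le_one hs]
        exact h4
      have hK := convex_convexHull ℝ (verts c : Set (Fin (2 * c + 1) → ℝ))
      have hmem : ∀ v ∈ verts c, v ∈ convexHull ℝ (verts c : Set (Fin (2 * c + 1) → ℝ)) :=
        fun v hv => subset_convexHull ℝ _ (by exact_mod_cast hv)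
      have hA := convex_comb hK (pt c 0 0) (fun i => pt c 0 (Pi.single i 1))
        (hmem _ (by simp [verts])) (fun i => hmem _ (by simp [verts])) y hy0 hy1
      have hB := convex_comb hK (pt c 3 0) (fun i => pt c 3 (Pi.single i (1 + 3 * c)))
        (hmem _ (by simp [verts])) (fun i => hmem _ (by simp [verts])) y hy0 hy1
      have hAB := hK hA hB (a := 1 - p 0 / 3) (b := p 0 / 3) (by linarith) (by positivity)
        (by ring)
      convert hAB using 1
      funext j
      refine Fin.cases ?_ (fun j => ?_) j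
      · simp only [Pi.add_apply, Pi.smul_apply, smul_eq_mul, Finset.sum_apply, pt_zero]
        simp only [← Finset.sum_mul]
        push_cast
        ring
      · simp only [Pi.add_apply, Pi.smul_apply, smul_eq_mul, Finset.sum_apply, pt_succ]
        have e1 : ∑ i, y i * ((Pi.single i 1 : Fin (2 * c) → ℤ) j : ℝ) = y j := by
          rw [Finset.sum_eq_single j]
          · simp
          · intro b _ hb
            simp [Pi.single_eq_of_ne' hb]
          · simp
        have e2 : ∑ i, y i * ((Pi.single i (1 + 3 * (c : ℤ)) : Fin (2 * c) → ℤ) j : ℝ) =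
            y j * (1 + 3 * c) := by
          rw [Finset.sum_eq_single j]
          · simp
          · intro b _ hb
            simp [Pi.single_eq_of_ne' hb]
          · simp
        rw [e1, e2]
        have e3 : p j.succ = y j * s := by
          rw [hy]; field_simp
        rw [e3, hsdef]
        simp only [Pi.zero_apply, Int.cast_zero]
        ring
    · apply convexHull_min _ (convex_Q c)
      intro v hv
      have hv' : v ∈ verts c := by exact_mod_cast hv
      simp only [verts, Finset.mem_union, Finset.mem_insert, Finset.mem_singleton,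
        Finset.mem_image, Finset.mem_univ, true_and] at hv'
      have hc : (0 : ℤ) ≤ c := Int.natCast_nonneg c
      rw [← one_dilate]
      rcases hv' with (rfl | rfl) | ⟨i, rfl⟩ | ⟨i, rfl⟩ <;> rw [pt_mem_dilate]
      · simp
      · refine ⟨by norm_num, by norm_num, fun i => le_refl _, ?_⟩
        simp
        positivity
      · refine ⟨by norm_num, by norm_num, fun j => ?_, ?_⟩
        · by_cases h : j = i
          · subst h; simp
          · simp [Pi.single_eq_of_ne h]
        · simp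
      · refine ⟨by norm_num, by norm_num, fun j => ?_, ?_⟩
        · by_cases h : j = i
          · subst h; simp; positivity
          · simp [Pi.single_eq_of_ne h]
        · simp
          linarith

/-- The interior lattice point `(2; 1, ..., 1)`. -/
lemma center_mem (c : ℕ) : pt c 2 (ones c) ∈ interior (Q c) := by
  rw [← one_dilate_interior, pt_mem_dilate_interior c 1 (le_refl _)]
  refine ⟨by norm_num, by norm_num, fun i => by simp [ones], ?_⟩
  rw [sum_ones]
  push_cast
  linarith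

lemma attained_iff (c : ℕ) (i : ℕ) : IsAttained (Q c) i ↔ i = 1 ∨ i = c + 1 := by
  constructor
  · rintro ⟨N, hN, a, ha, hal, hred⟩
    obtain ⟨t, x, rfl⟩ := exists_pt hal
    have h1 := ((pt_mem_dilate_interior c N hN t x).1 ha).1
    rcases lt_or_ge t 2 with ht | ht
    · have : t = 1 := by omega
      subst this
      exact Or.inr (hred.unique (reduced_big c N hN x ha))
    · exact Or.inl (hred.unique (reduced_one c N hN t x ht ha))
  · rintro (rfl | rfl)
    · exact ⟨1, le_refl _, pt c 2 (ones c), (one_dilate_interior c _).2 (center_mem c),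
        isLattice_pt _ _ _, reduced_one c 1 (le_refl _) 2 _ (le_refl _)
          ((one_dilate_interior c _).2 (center_mem c))⟩
    · have hmem : pt c 1 (ones c) ∈ dilate (c + 1) (interior (Q c)) := by
        rw [pt_mem_dilate_interior c (c + 1) (by omega)]
        refine ⟨by norm_num, by push_cast; omega, fun i => by simp [ones], ?_⟩
        rw [sum_ones]
        push_cast
        linarith
      exact ⟨c + 1, by omega, pt c 1 (ones c), hmem, isLattice_pt _ _ _,
        reduced_big c (c + 1) (by omega) _ hmem⟩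

/-- **Gaps below the int* degree.** For every `c ≥ 1` there is a normal lattice polytope
`P ⊂ ℝ^{2c+1}` of dimension `2c+1`, with a lattice point in its interior, whose int* degree
is `c + 1` and whose attained reduced degrees are exactly `1` and `c + 1`. For `c ≥ 2` the
degrees `2, ..., c` are not attained, so the answer to Q1 is negative. -/
theorem result (c : ℕ) (hc : 1 ≤ c) :
    ∃ P : Set (Fin (2 * c + 1) → ℝ),
      IsLatticePolytope P ∧ affineSpan ℝ P = ⊤ ∧ IsNormal P ∧ (∃ m ∈ interior P, IsLattice m) ∧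
      IsIntStarDegree P (c + 1) ∧ ∀ i : ℕ, IsAttained P i ↔ i = 1 ∨ i = c + 1 := by
  refine ⟨Q c, isLatticePolytope_Q c, ?_, isNormal_Q c, ⟨_, center_mem c, isLattice_pt _ _ _⟩,
    ?_, attained_iff c⟩
  · exact affineSpan_eq_top_of_nonempty_interior
      (Set.Nonempty.mono (interior_mono (subset_convexHull ℝ _)) ⟨_, center_mem c⟩)
  · constructor
    · exact (attained_iff c _).2 (Or.inr rfl)
    · intro i hi
      rcases (attained_iff c i).1 hi with rfl | rfl
      · omega
      · exact le_refl _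

/-- The negated form of Q1, deduced from `result` with `c = 2`: a polytope in `ℝ⁵`. -/
theorem exists_gap :
    ∃ (n : ℕ) (P : Set (Fin n → ℝ)), IsLatticePolytope P ∧ affineSpan ℝ P = ⊤ ∧ IsNormal P ∧
      (∃ m ∈ interior P, IsLattice m) ∧ ∃ d i : ℕ, IsIntStarDegree P d ∧ 1 ≤ i ∧ i < d ∧
        ¬ IsAttained P i := by
  obtain ⟨P, h1, h2, h3, h4, h5, h6⟩ := result 2 (by norm_num)
  refine ⟨5, P, h1, h2, h3, h4, 3, 2, h5, by norm_num, by norm_num, ?_⟩
  intro h
  have := (h6 2).1 h
  omega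

end Pool.Agent.Results.MP_751e6a_co.GapInDegrees
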